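import Mathlib

set_option autoImplicit false
open MeasureTheory Filter Topology

namespace Pool.Agent.Results.MP_aeea9f_an.KanJulia

/-- The sequence of maps `F` of the Riemann sphere is a normal family on `V`: every sequence of
members has a subsequence that converges locally uniformly on `V` (for the uniform structure of the
compact space `OnePoint ℂ`). -/
def IsNormalOn (F : ℕ → OnePoint ℂ → OnePoint ℂ) (V : Set (OnePoint ℂ)) : Prop :=
  letI : UniformSpace (OnePoint ℂ) := uniformSpaceOfCompactR1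
  ∀ n : ℕ → ℕ, ∃ k : ℕ → ℕ, StrictMono k ∧ ∃ g : OnePoint ℂ → OnePoint ℂ,
    TendstoLocallyUniformlyOn (fun j => F (n (k j))) g atTop V

/-- The Fatou set of a sequence of maps of the sphere. -/
def fatou (F : ℕ → OnePoint ℂ → OnePoint ℂ) : Set (OnePoint ℂ) :=
  {z | ∃ V ∈ 𝓝 z, IsNormalOn F V}

/-- The Julia set of a sequence of maps of the sphere. -/
def julia (F : ℕ → OnePoint ℂ → OnePoint ℂ) : Set (OnePoint ℂ) := (fatou F)ᶜ

/-- `cos (2 π u)` for a point `u` of the circle `ℝ/ℤ`. -/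
noncomputable def cosC (u : UnitAddCircle) : ℝ := (AddCircle.toCircle u : ℂ).re

/-- The base map `E(u) = L u mod 1`. -/
def expand (L : ℕ) (u : UnitAddCircle) : UnitAddCircle := L • u

/-- The fibre map `f_u(z) = z + α cos(2πu) z (1 - z)`. -/
noncomputable def fib (α : ℂ) (u : UnitAddCircle) (z : ℂ) : ℂ := z + α * cosC u * z * (1 - z)

/-- The composition `f^n_u = f_{E^{n-1}(u)} ∘ ⋯ ∘ f_{E(u)} ∘ f_u`. -/
noncomputable def fibIter (α : ℂ) (L : ℕ) (u : UnitAddCircle) : ℕ → ℂ → ℂ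
  | 0 => id
  | n + 1 => fib α ((expand L)^[n] u) ∘ fibIter α L u n

/-- The random Julia set `𝒥_u` in the Riemann sphere: the complement of the set of points with a
neighbourhood on which the family `f^n_u`, `n ≥ 1`, is normal. -/
def randomJulia (α : ℂ) (L : ℕ) (u : UnitAddCircle) : Set (OnePoint ℂ) :=
  julia fun n => OnePoint.map (fibIter α L u (n + 1))

lemma isNormalOn_of_tendsto_infty {F : ℕ → OnePoint ℂ → OnePoint ℂ} {V : Set (OnePoint ℂ)}
    (h : ∀ z ∈ V, Tendsto (fun y : ℕ × OnePoint ℂ => F y.1 y.2) (atTop ×ˢ 𝓝[V] z)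
      (𝓝 (OnePoint.infty : OnePoint ℂ)))
    (hc : ∀ n, ContinuousOn (F n) V) : IsNormalOn F V := by
  let _ : UniformSpace (OnePoint ℂ) := uniformSpaceOfCompactR1
  intro n
  by_cases hb : ∃ m, ∃ᶠ j in atTop, n j = m
  · obtain ⟨m, hm⟩ := hb
    obtain ⟨k, hk, hkm⟩ := extraction_of_frequently_atTop hm
    refine ⟨k, hk, F m, ?_⟩
    rw [tendstoLocallyUniformlyOn_iff_forall_tendsto]
    intro z hz
    have hcz : Tendsto (F m) (𝓝[V] z) (𝓝 (F m z)) := hc m z hz
    have h1 : Tendsto (fun y : ℕ × OnePoint ℂ => (F m y.2, F m y.2)) (atTop ×ˢ 𝓝[V] z)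
        (𝓝 (F m z, F m z)) := by
      exact (hcz.comp tendsto_snd).prodMk_nhds (hcz.comp tendsto_snd)
    have h2 := h1.mono_right (nhds_le_uniformity _)
    refine h2.congr fun y => ?_
    simp only [hkm]
  · push Not at hb
    have hn : Tendsto n atTop atTop := by
      rw [tendsto_atTop]
      intro N
      induction N with
      | zero => exact Eventually.of_forall fun _ => Nat.zero_le _
      | succ N ih =>
        filter_upwards [ih, hb N] with j h1 h2
        omega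
    refine ⟨id, strictMono_id, fun _ => OnePoint.infty, ?_⟩
    rw [tendstoLocallyUniformlyOn_iff_forall_tendsto]
    intro z hz
    have h1 : Tendsto (fun y : ℕ × OnePoint ℂ => F (n y.1) y.2) (atTop ×ˢ 𝓝[V] z)
        (𝓝 (OnePoint.infty : OnePoint ℂ)) := by
      have : Tendsto (fun y : ℕ × OnePoint ℂ => ((n y.1, y.2) : ℕ × OnePoint ℂ))
          (atTop ×ˢ 𝓝[V] z) (atTop ×ˢ 𝓝[V] z) :=
        (hn.comp tendsto_fst).prodMk tendsto_snd
      exact (h z hz).comp this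
    have h2 : Tendsto (fun y : ℕ × OnePoint ℂ => ((OnePoint.infty : OnePoint ℂ), F (n y.1) y.2))
        (atTop ×ˢ 𝓝[V] z) (𝓝 ((OnePoint.infty : OnePoint ℂ), (OnePoint.infty : OnePoint ℂ))) :=
      tendsto_const_nhds.prodMk_nhds h1
    exact h2.mono_right (nhds_le_uniformity _)

/-- the quadratic map -/
def quad (a z : ℂ) : ℂ := z + a * z * (1 - z)

/-- non-autonomous iteration of quadratic maps -/
def it (a : ℕ → ℂ) : ℕ → ℂ → ℂ
  | 0 => id
  | n + 1 => quad (a n) ∘ it a n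

lemma it_zero (a : ℕ → ℂ) (z : ℂ) : it a 0 z = z := rfl

lemma it_succ (a : ℕ → ℂ) (n : ℕ) (z : ℂ) : it a (n + 1) z = quad (a n) (it a n z) := rfl

/-- shifted sequence -/
def sh (a : ℕ → ℂ) (m : ℕ) : ℕ → ℂ := fun k => a (m + k)

lemma it_add (a : ℕ → ℂ) (m n : ℕ) (z : ℂ) : it a (m + n) z = it (sh a m) n (it a m z) := by
  induction n with
  | zero => rfl
  | succ n ih => rw [← add_assoc, it_succ, ih, it_succ]; rfl

lemma sh_sh (a : ℕ → ℂ) (m n : ℕ) : sh (sh a m) n = sh a (m + n) := by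
  ext k; simp [sh, add_assoc]

lemma continuous_quad (a : ℂ) : Continuous (quad a) := by unfold quad; fun_prop

lemma continuous_it (a : ℕ → ℂ) (n : ℕ) : Continuous (it a n) := by
  induction n with
  | zero => exact continuous_id
  | succ n ih => exact (continuous_quad _).comp ih

lemma it_at_zero (a : ℕ → ℂ) (n : ℕ) : it a n 0 = 0 := by
  induction n with
  | zero => rfl
  | succ n ih => rw [it_succ, ih]; simp [quad]

/-- coefficients decaying at most quadratically -/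
def GoodSeq (ε : ℝ) (a : ℕ → ℂ) : Prop := ∀ j : ℕ, ε / ((j : ℝ) + 1) ^ 2 ≤ ‖a j‖ ∧ ‖a j‖ ≤ 1

lemma four_le (n : ℕ) : 4 * ((n : ℝ) + 1) ^ 2 ≤ 9 * 2 ^ n := by
  induction n with
  | zero => norm_num
  | succ n ih =>
    rcases lt_or_ge n 3 with h | h
    · interval_cases n <;> norm_num
    · have hn : (3 : ℝ) ≤ n := by exact_mod_cast h
      have h2 : (2 : ℝ) ^ (n + 1) = 2 * 2 ^ n := pow_succ' _ _
      rw [h2]
      push_cast
      nlinarith

lemma norm_quad_ge (a z : ℂ) : ‖z‖ * (‖a‖ * ‖z‖ - 1 - ‖a‖) ≤ ‖quad a z‖ := by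
  have : quad a z = z * (1 + a - a * z) := by unfold quad; ring
  rw [this, norm_mul]
  gcongr
  calc ‖a‖ * ‖z‖ - 1 - ‖a‖ = ‖a * z‖ - (‖(1:ℂ)‖ + ‖a‖) := by rw [norm_mul, norm_one]; ring
    _ ≤ ‖a * z‖ - ‖1 + a‖ := by have := norm_add_le (1:ℂ) a; linarith
    _ ≤ ‖a * z - (1 + a)‖ := norm_sub_norm_le _ _
    _ = ‖1 + a - a * z‖ := norm_sub_rev _ _

lemma good_growth {ε : ℝ} (hε : 0 < ε) {a : ℕ → ℂ} (ha : GoodSeq ε a) {z : ℂ} (hz : 9 / ε ≤ ‖z‖)
    (n : ℕ) : 2 ^ n * ‖z‖ ≤ ‖it a n z‖ := by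
  induction n with
  | zero => simp [it_zero]
  | succ n ih =>
    rw [it_succ]
    obtain ⟨h1, h2⟩ := ha n
    have h3 := norm_quad_ge (a n) (it a n z)
    have hzpos : 0 < ‖z‖ := lt_of_lt_of_le (by positivity) hz
    have h4 : 4 ≤ ‖a n‖ * ‖it a n z‖ := by
      calc (4 : ℝ) ≤ ε / ((n : ℝ) + 1) ^ 2 * (2 ^ n * (9 / ε)) := by
            have := four_le n
            rw [div_mul_eq_mul_div, le_div_iff₀ (by positivity)]
            calc 4 * ((n : ℝ) + 1) ^ 2 ≤ 9 * 2 ^ n := this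
              _ = ε * (2 ^ n * (9 / ε)) := by field_simp
        _ ≤ ‖a n‖ * ‖it a n z‖ := by
            gcongr
            calc (2:ℝ) ^ n * (9 / ε) ≤ 2 ^ n * ‖z‖ := by gcongr
              _ ≤ _ := ih
    have hw : 0 ≤ ‖it a n z‖ := norm_nonneg _
    calc 2 ^ (n + 1) * ‖z‖ = 2 * (2 ^ n * ‖z‖) := by rw [pow_succ]; ring
      _ ≤ 2 * ‖it a n z‖ := by gcongr
      _ = ‖it a n z‖ * 2 := mul_comm _ _
      _ ≤ ‖it a n z‖ * (‖a n‖ * ‖it a n z‖ - 1 - ‖a n‖) := by
          gcongr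
          linarith
      _ ≤ _ := h3

/-- the orbit of `z` enters the escape region at a good time -/
def Esc (ε : ℝ) (a : ℕ → ℂ) (z : ℂ) : Prop := ∃ n, GoodSeq ε (sh a n) ∧ 9 / ε < ‖it a n z‖

lemma isOpen_Esc (ε : ℝ) (a : ℕ → ℂ) : IsOpen {z | Esc ε a z} := by
  have : {z | Esc ε a z} = ⋃ n, ⋃ (_ : GoodSeq ε (sh a n)), {z | 9 / ε < ‖it a n z‖} := by
    ext z; simp [Esc]
  rw [this]
  refine isOpen_iUnion fun n => isOpen_iUnion fun _ => ?_
  exact isOpen_lt continuous_const (continuous_it a n).norm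

lemma not_Esc_zero {ε : ℝ} (hε : 0 < ε) (a : ℕ → ℂ) : ¬ Esc ε a 0 := by
  rintro ⟨n, _, h⟩
  rw [it_at_zero, norm_zero] at h
  have : 0 < 9 / ε := by positivity
  linarith

lemma Esc_of_shift {ε : ℝ} {a : ℕ → ℂ} {m : ℕ} {z : ℂ} (h : Esc ε (sh a m) (it a m z)) :
    Esc ε a z := by
  obtain ⟨n, h1, h2⟩ := h
  refine ⟨m + n, ?_, ?_⟩
  · rw [← sh_sh]; exact h1
  · rw [it_add]; exact h2

lemma Esc_shift {ε : ℝ} (hε : 0 < ε) {a : ℕ → ℂ} (hfreq : ∃ᶠ n in atTop, GoodSeq ε (sh a n)) {z : ℂ}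
    (h : Esc ε a z) (m : ℕ) : Esc ε (sh a m) (it a m z) := by
  obtain ⟨n, h1, h2⟩ := h
  obtain ⟨N, hN, hgood⟩ := (frequently_atTop.mp hfreq) (max m n)
  have hm : m ≤ N := le_trans (le_max_left _ _) hN
  have hn : n ≤ N := le_trans (le_max_right _ _) hN
  refine ⟨N - m, ?_, ?_⟩
  · rw [sh_sh, Nat.add_sub_cancel' hm]; exact hgood
  · rw [← it_add, Nat.add_sub_cancel' hm]
    have := good_growth hε h1 h2.le (N - n)
    rw [← it_add, Nat.add_sub_cancel' hn] at this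
    have h3 : (1 : ℝ) ≤ 2 ^ (N - n) := one_le_pow₀ (by norm_num)
    have h4 : 0 < ‖it a n z‖ := lt_trans (by positivity) h2
    nlinarith

lemma frequently_sh {ε : ℝ} {a : ℕ → ℂ} (hfreq : ∃ᶠ n in atTop, GoodSeq ε (sh a n)) (m : ℕ) :
    ∃ᶠ n in atTop, GoodSeq ε (sh (sh a m) n) := by
  rw [frequently_atTop] at hfreq ⊢
  intro N
  obtain ⟨n, hn, hg⟩ := hfreq (m + N)
  refine ⟨n - m, by omega, ?_⟩
  rw [sh_sh, Nat.add_sub_cancel' (by omega)]
  exact hg

/-- boundary point of the escaping set -/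
def Bd (ε : ℝ) (a : ℕ → ℂ) (z : ℂ) : Prop := ¬ Esc ε a z ∧ ∃ᶠ y in 𝓝 z, Esc ε a y

/-- the family on the sphere -/
def fam (a : ℕ → ℂ) (n : ℕ) : OnePoint ℂ → OnePoint ℂ := OnePoint.map (it a (n + 1))

lemma tendsto_quad (a : ℂ) : Tendsto (quad a) (coclosedCompact ℂ) (coclosedCompact ℂ) := by
  rw [coclosedCompact_eq_cocompact, ← Metric.cobounded_eq_cocompact, ← comap_norm_atTop]
  rw [tendsto_comap_iff]
  by_cases ha : a = 0
  · have : (norm ∘ quad a) = norm := by ext z; simp [quad, ha]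
    rw [this]
    exact tendsto_comap
  · have hpos : 0 < ‖a‖ := norm_pos_iff.mpr ha
    have h1 : Tendsto (fun z : ℂ => ‖z‖ * (‖a‖ * ‖z‖ - 1 - ‖a‖)) (comap norm atTop) atTop := by
      have h2 : Tendsto (fun x : ℝ => x * (‖a‖ * x - 1 - ‖a‖)) atTop atTop := by
        apply Tendsto.atTop_mul_atTop₀ tendsto_id
        apply tendsto_atTop_add_const_right
        apply tendsto_atTop_add_const_right
        exact tendsto_id.const_mul_atTop hpos
      exact h2.comp tendsto_comap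
    exact tendsto_atTop_mono (fun z => norm_quad_ge a z) h1

lemma continuous_map_quad (a : ℂ) : Continuous (OnePoint.map (quad a)) :=
  OnePoint.continuous_map (continuous_quad a) (tendsto_quad a)

lemma continuous_map_it (a : ℕ → ℂ) (n : ℕ) : Continuous (OnePoint.map (it a n)) := by
  induction n with
  | zero =>
    have : OnePoint.map (it a 0) = id := OnePoint.map_id
    rw [this]; exact continuous_id
  | succ n ih =>
    have : OnePoint.map (it a (n + 1)) = OnePoint.map (quad (a n)) ∘ OnePoint.map (it a n) := by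
      rw [show it a (n + 1) = quad (a n) ∘ it a n from rfl, OnePoint.map_comp]
    rw [this]
    exact (continuous_map_quad _).comp ih


/-- the escaping set on the sphere -/
def EscS (ε : ℝ) (a : ℕ → ℂ) : Set (OnePoint ℂ) :=
  {z | ∃ n, GoodSeq ε (sh a n) ∧ OnePoint.map (it a n) z ∈ ((↑) '' Metric.closedBall (0:ℂ) (9 / ε) : Set (OnePoint ℂ))ᶜ}

lemma isOpen_EscS (ε : ℝ) (a : ℕ → ℂ) : IsOpen (EscS ε a) := by
  have : EscS ε a = ⋃ n, ⋃ (_ : GoodSeq ε (sh a n)),
      OnePoint.map (it a n) ⁻¹' ((↑) '' Metric.closedBall (0:ℂ) (9 / ε) : Set (OnePoint ℂ))ᶜ := by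
    ext z; simp [EscS]
  rw [this]
  refine isOpen_iUnion fun n => isOpen_iUnion fun _ => ?_
  refine IsOpen.preimage (continuous_map_it a n) ?_
  exact OnePoint.isOpen_compl_image_coe.mpr ⟨Metric.isClosed_closedBall, isCompact_closedBall _ _⟩

lemma coe_mem_EscS {ε : ℝ} {a : ℕ → ℂ} {z : ℂ} : (z : OnePoint ℂ) ∈ EscS ε a ↔ Esc ε a z := by
  unfold EscS Esc
  simp only [Set.mem_ofPred_eq, OnePoint.map_some, Set.mem_compl_iff, Set.mem_image,
    mem_closedBall_zero_iff, OnePoint.coe_eq_coe, exists_eq_right, not_le]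

lemma infty_mem_EscS {ε : ℝ} {a : ℕ → ℂ} (hfreq : ∃ᶠ n in atTop, GoodSeq ε (sh a n)) :
    (OnePoint.infty : OnePoint ℂ) ∈ EscS ε a := by
  obtain ⟨n, hn⟩ := hfreq.exists
  refine ⟨n, hn, ?_⟩
  simp

/-- on the escaping set the iterates tend to infinity locally uniformly -/
lemma tendsto_of_mem_EscS {ε : ℝ} (hε : 0 < ε) {a : ℕ → ℂ} {z : OnePoint ℂ} (hz : z ∈ EscS ε a) :
    Tendsto (fun y : ℕ × OnePoint ℂ => OnePoint.map (it a y.1) y.2) (atTop ×ˢ 𝓝 z)
      (𝓝 (OnePoint.infty : OnePoint ℂ)) := by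
  obtain ⟨n, hn, hz⟩ := hz
  rw [OnePoint.hasBasis_nhds_infty.tendsto_right_iff]
  rintro s ⟨_, hs⟩
  obtain ⟨B, hB⟩ := hs.isBounded.exists_norm_le
  obtain ⟨M, hM⟩ := pow_unbounded_of_one_lt (B / (9 / ε)) (one_lt_two)
  have hV : OnePoint.map (it a n) ⁻¹' ((↑) '' Metric.closedBall (0:ℂ) (9 / ε) : Set (OnePoint ℂ))ᶜ ∈ 𝓝 z := by
    refine (IsOpen.preimage (continuous_map_it a n) ?_).mem_nhds hz
    exact OnePoint.isOpen_compl_image_coe.mpr ⟨Metric.isClosed_closedBall, isCompact_closedBall _ _⟩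
  filter_upwards [prod_mem_prod (eventually_ge_atTop (n + M)) hV] with y hy
  obtain ⟨h1, h2⟩ := hy
  obtain ⟨m, w⟩ := y
  simp only [Set.mem_ofPred_eq, Set.mem_preimage] at h1 h2 ⊢
  induction w using OnePoint.rec with
  | infty => simp
  | coe w =>
    simp only [OnePoint.map_some, Set.mem_compl_iff, Set.mem_image, mem_closedBall_zero_iff,
      OnePoint.coe_eq_coe, exists_eq_right, not_le, Set.mem_union, Set.mem_singleton_iff,
      OnePoint.coe_ne_infty, or_false] at h2 ⊢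
    intro hws
    have h3 := good_growth hε hn h2.le (m - n)
    rw [← it_add, Nat.add_sub_cancel' (by omega)] at h3
    have h4 := hB _ hws
    have hpos : 0 < 9 / ε := by positivity
    rw [div_lt_iff₀ hpos] at hM
    have h5 : (2 : ℝ) ^ M ≤ 2 ^ (m - n) := pow_le_pow_right₀ (by norm_num) (by omega)
    have h6 : B < 2 ^ (m - n) * ‖it a n w‖ := by
      calc B < 2 ^ M * (9 / ε) := hM
        _ ≤ 2 ^ (m - n) * ‖it a n w‖ := by gcongr
    linarith

lemma EscS_subset_fatou {ε : ℝ} (hε : 0 < ε) (a : ℕ → ℂ) : EscS ε a ⊆ fatou (fam a) := by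
  intro z hz
  refine ⟨EscS ε a, (isOpen_EscS ε a).mem_nhds hz, ?_⟩
  apply isNormalOn_of_tendsto_infty
  · intro w hw
    have h1 := tendsto_of_mem_EscS hε hw
    have h2 : Tendsto (fun y : ℕ × OnePoint ℂ => ((y.1 + 1, y.2) : ℕ × OnePoint ℂ))
        (atTop ×ˢ 𝓝[EscS ε a] w) (atTop ×ˢ 𝓝 w) := by
      apply Tendsto.prodMk
      · exact (tendsto_add_atTop_nat 1).comp tendsto_fst
      · exact tendsto_snd.mono_right nhdsWithin_le_nhds
    exact h1.comp h2
  · intro n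
    exact (continuous_map_it a (n + 1)).continuousOn

lemma Bd_mem_julia {ε : ℝ} (hε : 0 < ε) {a : ℕ → ℂ} (hfreq : ∃ᶠ n in atTop, GoodSeq ε (sh a n))
    {z : ℂ} (hz : Bd ε a z) : (z : OnePoint ℂ) ∈ julia (fam a) := by
  let _ : UniformSpace (OnePoint ℂ) := uniformSpaceOfCompactR1
  rintro ⟨V, hV, hnorm⟩
  obtain ⟨hnz, hbd⟩ := hz
  -- a sequence of good times
  have hfreq' : ∃ᶠ n in atTop, GoodSeq ε (sh a (n + 1)) := by
    rw [frequently_atTop] at hfreq ⊢
    intro N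
    obtain ⟨m, hm, hg⟩ := hfreq (N + 1)
    exact ⟨m - 1, by omega, by rwa [Nat.sub_add_cancel (by omega)]⟩
  obtain ⟨n, hnmono, hn⟩ := extraction_of_frequently_atTop hfreq'
  obtain ⟨k, hk, g, hg⟩ := hnorm n
  have hzV : (z : OnePoint ℂ) ∈ V := mem_of_mem_nhds hV
  have hcont : ContinuousOn g V := by
    apply hg.continuousOn
    exact Frequently.of_forall fun j => (continuous_map_it a _).continuousOn
  -- the limit at `z` is finite
  have hgz : g z ∈ ((↑) '' Metric.closedBall (0:ℂ) (9 / ε) : Set (OnePoint ℂ)) := by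
    have hcl : IsClosed ((↑) '' Metric.closedBall (0:ℂ) (9 / ε) : Set (OnePoint ℂ)) :=
      ((isCompact_closedBall _ _).image OnePoint.continuous_coe).isClosed
    have hlim : Tendsto (fun j => fam a (n (k j)) (z : OnePoint ℂ)) atTop (𝓝 (g z)) :=
      hg.tendsto_at hzV
    refine hcl.mem_of_tendsto hlim (Eventually.of_forall fun j => ?_)
    refine ⟨it a (n (k j) + 1) z, ?_, rfl⟩
    rw [mem_closedBall_zero_iff]
    by_contra hcon
    push Not at hcon
    exact hnz ⟨_, hn (k j), hcon⟩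
  have hgne : g z ≠ OnePoint.infty := by
    obtain ⟨w, _, hw⟩ := hgz
    rw [← hw]
    exact OnePoint.coe_ne_infty w
  have hev : ∀ᶠ y in 𝓝 (z : OnePoint ℂ), g y ≠ OnePoint.infty := by
    have hca : ContinuousAt g (z : OnePoint ℂ) := hcont.continuousAt hV
    exact hca.eventually_ne hgne
  rw [OnePoint.nhds_coe_eq, eventually_map] at hev
  have hVev : ∀ᶠ y in 𝓝 z, ((y : ℂ) : OnePoint ℂ) ∈ V := by
    have := hV
    rw [OnePoint.nhds_coe_eq, mem_map] at this
    exact this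
  obtain ⟨y, hy2, hy1, hy3⟩ := (hbd.and_eventually (hev.and hVev)).exists
  apply hy1
  have hlim : Tendsto (fun j => fam a (n (k j)) (y : OnePoint ℂ)) atTop (𝓝 (g y)) :=
    hg.tendsto_at hy3
  have hlim2 : Tendsto (fun j => fam a (n (k j)) (y : OnePoint ℂ)) atTop (𝓝 (OnePoint.infty : OnePoint ℂ)) := by
    have h1 := tendsto_of_mem_EscS hε (coe_mem_EscS.mpr hy2)
    have h2 : Tendsto (fun j : ℕ => ((n (k j) + 1, (y : OnePoint ℂ)) : ℕ × OnePoint ℂ)) atTop
        (atTop ×ˢ 𝓝 (y : OnePoint ℂ)) := by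
      apply Tendsto.prodMk
      · exact (tendsto_add_atTop_nat 1).comp ((hnmono.comp hk).tendsto_atTop)
      · exact tendsto_const_nhds
    exact h1.comp h2
  exact tendsto_nhds_unique hlim hlim2


lemma isOpenQuotientMap_quad (a : ℂ) : IsOpenQuotientMap (quad a) := by
  set p : Polynomial ℂ := Polynomial.X + Polynomial.C a * Polynomial.X * (1 - Polynomial.X) with hp
  have hev : (fun x => p.eval x) = quad a := by
    ext z; simp [hp, quad]
  rcases Polynomial.C_eq_or_isOpenQuotientMap_eval p with ⟨x, hx⟩ | h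
  · exfalso
    have h0 : x = 0 := by
      have := congrArg (Polynomial.eval 0) hx
      simpa [hp] using this
    have h1 : x = 1 := by
      have := congrArg (Polynomial.eval 1) hx
      simpa [hp] using this
    rw [h0] at h1
    exact zero_ne_one h1
  · rw [← hev]; exact h

lemma isOpenMap_it (a : ℕ → ℂ) (n : ℕ) : IsOpenMap (it a n) := by
  induction n with
  | zero => exact IsOpenMap.id
  | succ n ih => exact (isOpenQuotientMap_quad (a n)).isOpenMap.comp ih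

lemma surjective_it (a : ℕ → ℂ) (n : ℕ) : Function.Surjective (it a n) := by
  induction n with
  | zero => exact Function.surjective_id
  | succ n ih => exact (isOpenQuotientMap_quad (a n)).surjective.comp ih

lemma Bd_pull {ε : ℝ} (hε : 0 < ε) {a : ℕ → ℂ} (hfreq : ∃ᶠ n in atTop, GoodSeq ε (sh a n))
    {m : ℕ} {z : ℂ} (h : Bd ε (sh a m) (it a m z)) : Bd ε a z := by
  obtain ⟨h1, h2⟩ := h
  refine ⟨fun hcon => h1 (Esc_shift hε hfreq hcon m), ?_⟩
  have h3 := (h2.filter_mono ((isOpenMap_it a m).nhds_le z))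
  rw [frequently_map] at h3
  exact h3.mono fun y hy => Esc_of_shift hy

lemma Esc_iff_quad {ε : ℝ} (hε : 0 < ε) {b : ℕ → ℂ} (hfreq : ∃ᶠ n in atTop, GoodSeq ε (sh b n))
    (z : ℂ) : Esc ε b z ↔ Esc ε (sh b 1) (quad (b 0) z) :=
  ⟨fun h => Esc_shift hε hfreq h 1, fun h => Esc_of_shift (m := 1) h⟩

theorem not_preconnected {ε : ℝ} (hε : 0 < ε) {a : ℕ → ℂ}
    (hfreq : ∃ᶠ n in atTop, GoodSeq ε (sh a n)) (m : ℕ) (ham : a m ≠ 0) (hle : ‖a m‖ < 1)
    (hray : ∀ s : ℝ, 1 ≤ s → Esc ε (sh a (m + 1)) ((1 + a m) ^ 2 / (4 * a m) * s)) :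
    ¬ IsPreconnected (julia (fam a)) := by
  have h1a : 1 + a m ≠ 0 := by
    intro h
    have : a m = -1 := by linear_combination h
    rw [this] at hle
    simp at hle
  set c : ℂ := (1 + a m) / (2 * a m) with hc
  have hc0 : c ≠ 0 := div_ne_zero h1a (mul_ne_zero two_ne_zero ham)
  have hquadc : ∀ y : ℝ, quad (a m) (c * (1 + Complex.I * y)) =
      (1 + a m) ^ 2 / (4 * a m) * ((1 + y ^ 2 : ℝ) : ℂ) := by
    intro y
    unfold quad
    rw [hc]
    push_cast
    field_simp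
    linear_combination (-4 * (1 + a m) * y ^ 2) * Complex.I_sq
  have hquadsym : ∀ z, quad (a m) (2 * c - z) = quad (a m) z := by
    intro z
    unfold quad
    rw [hc]
    field_simp
    ring
  set b := sh a m with hb
  have hbfreq : ∃ᶠ n in atTop, GoodSeq ε (sh b n) := frequently_sh hfreq m
  have hb0 : b 0 = a m := rfl
  have hb1 : sh b 1 = sh a (m + 1) := by rw [hb, sh_sh]
  have hline : ∀ w : ℂ, (w / c).re = 1 → Esc ε b w := by
    intro w hw
    have hwc : w = c * (1 + Complex.I * ((w / c).im : ℝ)) := by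
      have h1 : w / c = 1 + Complex.I * ((w / c).im : ℝ) := by
        apply Complex.ext
        · simp [hw]
        · simp
      calc w = c * (w / c) := by field_simp
        _ = _ := by rw [← h1]
    rw [Esc_iff_quad hε hbfreq, hb0, hb1, hwc, hquadc]
    apply hray
    nlinarith [sq_nonneg (w / c).im]
  have hsym : ∀ w : ℂ, Esc ε b (2 * c - w) ↔ Esc ε b w := by
    intro w
    rw [Esc_iff_quad hε hbfreq, Esc_iff_quad hε hbfreq w, hb0, hquadsym]
  -- a boundary point on the segment from `0` to `c`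
  obtain ⟨t, ht1, hBd⟩ : ∃ t : ℝ, t < 1 ∧ Bd ε b (t * c) := by
    set T : Set ℝ := {t | t ∈ Set.Icc (0:ℝ) 1 ∧ ¬ Esc ε b (t * c)} with hT
    have hcontT : Continuous fun t : ℝ => (t : ℂ) * c := by fun_prop
    have hTcl : IsCompact T := by
      have : T = Set.Icc (0:ℝ) 1 ∩ (fun t : ℝ => (t : ℂ) * c) ⁻¹' {z | Esc ε b z}ᶜ := by
        ext t; simp [hT]
      rw [this]
      exact isCompact_Icc.inter_right ((isOpen_Esc ε b).isClosed_compl.preimage hcontT)
    have hTne : T.Nonempty := by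
      refine ⟨0, by simp, ?_⟩
      rw [Complex.ofReal_zero, zero_mul]
      exact not_Esc_zero hε b
    obtain ⟨t, ⟨htI, htE⟩, htmax⟩ := hTcl.exists_isGreatest hTne
    have ht1 : t < 1 := by
      rcases htI.2.lt_or_eq with h | h
      · exact h
      · exfalso
        apply htE
        rw [h, Complex.ofReal_one, one_mul]
        apply hline
        rw [div_self hc0]; simp
    refine ⟨t, ht1, htE, ?_⟩
    have h1 : ∃ᶠ s in 𝓝 t, Esc ε b (((s : ℝ) : ℂ) * c) := by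
      have h2 : ∀ᶠ s in 𝓝[>] t, Esc ε b (((s : ℝ) : ℂ) * c) := by
        filter_upwards [Ioc_mem_nhdsGT ht1] with s hs
        by_contra hcon
        have hsT : s ∈ T := ⟨⟨htI.1.trans hs.1.le, hs.2⟩, hcon⟩
        have := htmax hsT
        exact absurd hs.1 (not_lt.mpr this)
      exact h2.frequently.filter_mono nhdsWithin_le_nhds
    exact (hcontT.tendsto t).frequently h1
  -- its mirror image
  have hBd2 : Bd ε b (2 * c - t * c) := by
    refine ⟨fun h => hBd.1 ((hsym _).mp h), ?_⟩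
    have hcr : Tendsto (fun w : ℂ => 2 * c - w) (𝓝 ((t : ℂ) * c)) (𝓝 (2 * c - t * c)) :=
      (continuous_const.sub continuous_id).tendsto _
    refine hcr.frequently ?_
    exact hBd.2.mono fun w hw => (hsym w).mpr hw
  obtain ⟨z1, hz1⟩ := surjective_it a m (t * c)
  obtain ⟨z2, hz2⟩ := surjective_it a m (2 * c - t * c)
  have hJ1 : (z1 : OnePoint ℂ) ∈ julia (fam a) :=
    Bd_mem_julia hε hfreq (Bd_pull hε hfreq (m := m) (by rw [hz1]; exact hBd))
  have hJ2 : (z2 : OnePoint ℂ) ∈ julia (fam a) :=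
    Bd_mem_julia hε hfreq (Bd_pull hε hfreq (m := m) (by rw [hz2]; exact hBd2))
  set U1 : Set ℂ := {w | (w / c).re < 1} with hU1
  set U2 : Set ℂ := {w | 1 < (w / c).re} with hU2
  have hU1o : IsOpen U1 := isOpen_lt (by fun_prop) continuous_const
  have hU2o : IsOpen U2 := isOpen_lt continuous_const (by fun_prop)
  set V1 : Set (OnePoint ℂ) := OnePoint.map (it a m) ⁻¹' ((↑) '' U1) with hV1
  set V2 : Set (OnePoint ℂ) := OnePoint.map (it a m) ⁻¹' ((↑) '' U2) with hV2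
  have hV1o : IsOpen V1 := (OnePoint.isOpen_image_coe.mpr hU1o).preimage (continuous_map_it a m)
  have hV2o : IsOpen V2 := (OnePoint.isOpen_image_coe.mpr hU2o).preimage (continuous_map_it a m)
  intro hconn
  have hcover : julia (fam a) ⊆ V1 ∪ V2 := by
    intro z hz
    have hzE : z ∉ EscS ε a := fun h => hz (EscS_subset_fatou hε a h)
    induction z using OnePoint.rec with
    | infty => exact absurd (infty_mem_EscS hfreq) hzE
    | coe z =>
      rw [coe_mem_EscS] at hzE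
      rcases lt_trichotomy ((it a m z) / c).re 1 with h | h | h
      · exact Or.inl ⟨it a m z, h, rfl⟩
      · exact absurd (Esc_of_shift (hline _ h)) hzE
      · exact Or.inr ⟨it a m z, h, rfl⟩
  have hne1 : (julia (fam a) ∩ V1).Nonempty := by
    refine ⟨z1, hJ1, it a m z1, ?_, rfl⟩
    rw [hz1]
    show ((t : ℂ) * c / c).re < 1
    rw [mul_div_cancel_right₀ _ hc0]
    simpa using ht1
  have hne2 : (julia (fam a) ∩ V2).Nonempty := by
    refine ⟨z2, hJ2, it a m z2, ?_, rfl⟩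
    rw [hz2]
    show 1 < ((2 * c - (t : ℂ) * c) / c).re
    rw [sub_div, mul_div_cancel_right₀ _ hc0, mul_div_cancel_right₀ _ hc0]
    simp
    linarith
  obtain ⟨z, _, hz1', hz2'⟩ := hconn V1 V2 hV1o hV2o hcover hne1 hne2
  obtain ⟨w1, hw1, e1⟩ := hz1'
  obtain ⟨w2, hw2, e2⟩ := hz2'
  have : w1 = w2 := by
    have := e1.trans e2.symm
    exact_mod_cast this
  rw [this] at hw1
  have hw1' : (w2 / c).re < 1 := hw1
  have hw2' : 1 < (w2 / c).re := hw2
  linarith

lemma alg_neg {ρ0 ρ1 ρ2 s : ℝ} {a0 a1 a2 : ℂ} (h0 : 2.85 ≤ ρ0) (h1 : 2.85 ≤ ρ1) (h2 : 2.85 ≤ ρ2)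
    (hs : 1 ≤ s) (k0 : ‖a0‖ ≤ 1 / 200) (k1 : ‖a1‖ ≤ 1 / 200) (k2 : ‖a2‖ ≤ 1 / 200)
    {Y1 Y2 Y3 : ℂ} (e1 : Y1 = -(ρ0 : ℂ) * (1 + a0) ^ 2 * s / 4)
    (e2 : Y2 = -(ρ1 : ℂ) * Y1 * (1 + a1 - Y1)) (e3 : Y3 = -(ρ2 : ℂ) * Y2 * (1 + a2 - Y2)) :
    3 ≤ ‖Y3‖ := by
  set e : ℂ := 2 * a0 + a0 ^ 2 with he
  have hen : ‖e‖ ≤ 0.0101 := by
    calc ‖e‖ ≤ ‖2 * a0‖ + ‖a0 ^ 2‖ := norm_add_le _ _
      _ = 2 * ‖a0‖ + ‖a0‖ ^ 2 := by rw [norm_mul, norm_pow, Complex.norm_ofNat]
      _ ≤ 2 * (1 / 200) + (1 / 200) ^ 2 := by gcongr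
      _ ≤ 0.0101 := by norm_num
  set t : ℝ := ρ0 * s / 4 with ht
  have htge : 0.7125 ≤ t := by rw [ht]; nlinarith
  have hY1 : Y1 = -((t : ℂ) + t * e) := by
    rw [e1, ht, he]; push_cast; ring
  have n1 : 0.9899 * t ≤ ‖Y1‖ := by
    rw [hY1, norm_neg]
    have h := norm_sub_norm_le ((t : ℂ)) (-(t * e))
    rw [sub_neg_eq_add, norm_neg, norm_mul, Complex.norm_real, Real.norm_of_nonneg (by linarith)] at h
    nlinarith [norm_nonneg e]
  have n2 : 0.9899 * (1 + t) ≤ ‖1 + a1 - Y1‖ := by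
    have : 1 + a1 - Y1 = ((1 + t : ℝ) : ℂ) - (-(a1 + t * e)) := by rw [hY1]; push_cast; ring
    rw [this]
    have h := norm_sub_norm_le (((1 + t : ℝ) : ℂ)) (-(a1 + t * e))
    rw [norm_neg, Complex.norm_real, Real.norm_of_nonneg (by linarith)] at h
    have h3 : ‖a1 + t * e‖ ≤ 1 / 200 + t * 0.0101 := by
      calc ‖a1 + t * e‖ ≤ ‖a1‖ + ‖(t : ℂ) * e‖ := norm_add_le _ _
        _ ≤ 1 / 200 + t * 0.0101 := by
            rw [norm_mul, Complex.norm_real, Real.norm_of_nonneg (by linarith)]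
            gcongr
    nlinarith
  have n3 : 3.4 ≤ ‖Y2‖ := by
    rw [e2, norm_mul, norm_mul, norm_neg, Complex.norm_real, Real.norm_of_nonneg (by linarith)]
    have hp1 : 0.7053 ≤ ‖Y1‖ := by nlinarith
    have hp2 : 1.6952 ≤ ‖1 + a1 - Y1‖ := by nlinarith
    have hp3 : 2.01 ≤ ρ1 * ‖Y1‖ := by nlinarith
    nlinarith
  rw [e3, norm_mul, norm_mul, norm_neg, Complex.norm_real, Real.norm_of_nonneg (by linarith)]
  have n4 : 2.3 ≤ ‖1 + a2 - Y2‖ := by
    have h := norm_sub_norm_le Y2 (1 + a2)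
    rw [norm_sub_rev] at h
    have h5 : ‖1 + a2‖ ≤ 1 + 1 / 200 := (norm_add_le _ _).trans (by rw [norm_one]; linarith)
    linarith
  have hp3 : 9 ≤ ρ2 * ‖Y2‖ := by nlinarith
  nlinarith

lemma alg_pos {ρ0 ρ1 ρ2 s : ℝ} {a0 a1 a2 : ℂ} (h0 : 4.75 ≤ ρ0) (h1 : 4.75 ≤ ρ1) (h2 : 4.75 ≤ ρ2)
    (hs : 1 ≤ s) (k0 : ‖a0‖ ≤ 1 / 200) (k1 : ‖a1‖ ≤ 1 / 200) (k2 : ‖a2‖ ≤ 1 / 200)
    {Y1 Y2 Y3 : ℂ} (e1 : Y1 = (ρ0 : ℂ) * (1 + a0) ^ 2 * s / 4)
    (e2 : Y2 = (ρ1 : ℂ) * Y1 * (1 + a1 - Y1)) (e3 : Y3 = (ρ2 : ℂ) * Y2 * (1 + a2 - Y2)) :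
    3 ≤ ‖Y3‖ := by
  set e : ℂ := 2 * a0 + a0 ^ 2 with he
  have hen : ‖e‖ ≤ 0.0101 := by
    calc ‖e‖ ≤ ‖2 * a0‖ + ‖a0 ^ 2‖ := norm_add_le _ _
      _ = 2 * ‖a0‖ + ‖a0‖ ^ 2 := by rw [norm_mul, norm_pow, Complex.norm_ofNat]
      _ ≤ 2 * (1 / 200) + (1 / 200) ^ 2 := by gcongr
      _ ≤ 0.0101 := by norm_num
  set t : ℝ := ρ0 * s / 4 with ht
  have htge : 1.1875 ≤ t := by rw [ht]; nlinarith
  have hY1 : Y1 = (t : ℂ) * (1 + e) := by
    rw [e1, ht, he]; push_cast; ring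
  set η : ℂ := e * ((t : ℂ) - 1) + (1 + e) * (t * e - a1) with hη
  have hηn : ‖η‖ ≤ 0.03 * t := by
    have g1 : ‖e * ((t : ℂ) - 1)‖ ≤ 0.0101 * (t - 1) := by
      rw [norm_mul]
      have : ((t : ℂ) - 1) = ((t - 1 : ℝ) : ℂ) := by push_cast; ring
      rw [this, Complex.norm_real, Real.norm_of_nonneg (by linarith)]
      have : 0 ≤ t - 1 := by linarith
      gcongr
    have g2 : ‖(1 + e)‖ ≤ 1.0101 := (norm_add_le _ _).trans (by rw [norm_one]; linarith)
    have g3 : ‖t * e - a1‖ ≤ t * 0.0101 + 1 / 200 := by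
      refine (norm_sub_le _ _).trans ?_
      rw [norm_mul, Complex.norm_real, Real.norm_of_nonneg (by linarith)]
      gcongr
    have g4 : ‖(1 + e) * (t * e - a1)‖ ≤ 1.0101 * (t * 0.0101 + 1 / 200) := by
      rw [norm_mul]; gcongr
    calc ‖η‖ ≤ ‖e * ((t : ℂ) - 1)‖ + ‖(1 + e) * (t * e - a1)‖ := norm_add_le _ _
      _ ≤ 0.0101 * (t - 1) + 1.0101 * (t * 0.0101 + 1 / 200) := add_le_add g1 g4
      _ ≤ 0.03 * t := by nlinarith
  have hY2 : -Y2 = ((ρ1 * t : ℝ) : ℂ) * (((t - 1 : ℝ) : ℂ) + η) := by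
    rw [e2, hY1, hη]; push_cast; ring
  have hre : 0.85 ≤ (-Y2).re := by
    rw [hY2, Complex.re_ofReal_mul, Complex.add_re, Complex.ofReal_re]
    have h5 := Complex.abs_re_le_norm η
    have h6 := neg_abs_le η.re
    have h7 : 0.97 * t - 1 ≤ t - 1 + η.re := by linarith
    have h8 : 5.64 ≤ ρ1 * t := by nlinarith
    nlinarith
  have n1 : 0.85 ≤ ‖Y2‖ := by
    rw [← norm_neg]; exact hre.trans ((le_abs_self _).trans (Complex.abs_re_le_norm _))
  have n2 : 1.845 ≤ ‖1 + a2 - Y2‖ := by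
    have h9 : (1 + a2 - Y2).re = 1 + a2.re + (-Y2).re := by simp; ring
    have h10 : -(1/200 : ℝ) ≤ a2.re := by
      have := Complex.abs_re_le_norm a2
      have := neg_abs_le a2.re
      linarith
    have : 1.845 ≤ (1 + a2 - Y2).re := by rw [h9]; linarith
    exact this.trans ((le_abs_self _).trans (Complex.abs_re_le_norm _))
  rw [e3, norm_mul, norm_mul, Complex.norm_real, Real.norm_of_nonneg (by linarith)]
  have hp3 : 4.03 ≤ ρ2 * ‖Y2‖ := by nlinarith
  nlinarith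

lemma sin_ratio {L : ℕ} (hL : 3 ≤ L) {x : ℝ} (hx : 0 < x) (hx1 : x * L ≤ Real.pi / 4) :
    0 < Real.sin x ∧ 2.5 * Real.sin x ≤ Real.sin (x * L) ∧
    (x * L ≤ 1 / 200 → 0.95 * L * Real.sin x ≤ Real.sin (x * L)) := by
  have hLr : (3 : ℝ) ≤ L := by exact_mod_cast hL
  have hpi := Real.pi_lt_d2
  have hy : 0 < x * L := by positivity
  have hy1 : x * L ≤ 1 := by linarith
  have hcube := Real.sin_gt_sub_cube hy
  have hsx : Real.sin x ≤ x := Real.sin_le hx.le
  have hxle : x ≤ x * L := by nlinarith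
  have hsin : 0 < Real.sin x := Real.sin_pos_of_pos_of_lt_pi hx (by linarith)
  refine ⟨hsin, ?_, ?_⟩
  · have hy2 : x * L ≤ 0.7875 := by linarith
    have h1 : 0.84 * (x * L) ≤ x * L - (x * L) ^ 3 / 6 := by
      have : (x * L) ^ 2 ≤ 0.7875 ^ 2 := by gcongr
      nlinarith
    have h2 : 2.5 * x ≤ 0.84 * (x * L) := by nlinarith
    nlinarith
  · intro hsmall
    have h1 : 0.95 * (x * L) ≤ x * L - (x * L) ^ 3 / 6 := by
      have : (x * L) ^ 2 ≤ (1 / 200) ^ 2 := by gcongr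
      nlinarith
    have h2 : 0.95 * L * Real.sin x ≤ 0.95 * L * x := by gcongr
    linarith

lemma odd_escape {L : ℕ} (hL : 3 ≤ L) (σ : ℝ) (hσ : (σ = -1) ∨ (σ = 1 ∧ 5 ≤ L))
    {θ : ℝ} (hθ : 0 < θ) {K : ℕ} (hK : 3 ≤ K) (hθK : θ * L ^ K ≤ Real.pi / 4)
    (hθ3 : θ * L ^ 3 ≤ 1 / 200) {α : ℂ} (hα : α ≠ 0) (hα1 : ‖α‖ ≤ 1) {a : ℕ → ℂ}
    (ha : ∀ k ≤ K, a k = α * ((-(σ ^ k * Real.sin (θ * L ^ k)) : ℝ) : ℂ)) {s : ℝ} (hs : 1 ≤ s) :
    3 * 2 ^ (K - 3) ≤ ‖it (sh a 1) (K - 1) ((1 + a 0) ^ 2 / (4 * a 0) * s)‖ := by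
  have hLr : (3 : ℝ) ≤ L := by exact_mod_cast hL
  have hσ2 : σ ^ 2 = 1 := by rcases hσ with h | ⟨h, _⟩ <;> rw [h] <;> norm_num
  have hσabs : |σ| = 1 := by rcases hσ with h | ⟨h, _⟩ <;> rw [h] <;> norm_num
  have hmono : ∀ k j : ℕ, k ≤ j → θ * (L : ℝ) ^ k ≤ θ * (L : ℝ) ^ j := by
    intro k j hkj
    have : (L : ℝ) ^ k ≤ (L : ℝ) ^ j := pow_le_pow_right₀ (by linarith) hkj
    gcongr
  have hstep : ∀ k < K, 0 < Real.sin (θ * L ^ k) ∧
      2.5 * Real.sin (θ * L ^ k) ≤ Real.sin (θ * L ^ (k + 1)) := by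
    intro k hk
    have h1 : θ * (L : ℝ) ^ k * L ≤ Real.pi / 4 := by
      have := hmono (k + 1) K hk
      rw [pow_succ] at this
      calc θ * (L : ℝ) ^ k * L = θ * ((L : ℝ) ^ k * L) := by ring
        _ ≤ θ * L ^ K := this
        _ ≤ _ := hθK
    have h2 := sin_ratio hL (x := θ * (L : ℝ) ^ k) (by positivity) h1
    refine ⟨h2.1, ?_⟩
    have h3 := h2.2.1
    rw [show θ * (L : ℝ) ^ k * L = θ * L ^ (k + 1) by rw [pow_succ]; ring] at h3
    exact h3
  have hstep2 : ∀ k < 3, 0.95 * L * Real.sin (θ * L ^ k) ≤ Real.sin (θ * L ^ (k + 1)) := by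
    intro k hk
    have h1 : θ * (L : ℝ) ^ k * L ≤ 1 / 200 := by
      have := hmono (k + 1) 3 hk
      rw [pow_succ] at this
      calc θ * (L : ℝ) ^ k * L = θ * ((L : ℝ) ^ k * L) := by ring
        _ ≤ θ * L ^ 3 := this
        _ ≤ _ := hθ3
    have hpi := Real.pi_gt_three
    have h2 := sin_ratio hL (x := θ * (L : ℝ) ^ k) (by positivity) (by linarith)
    have h3 := h2.2.2 h1
    rw [show θ * (L : ℝ) ^ k * L = θ * L ^ (k + 1) by rw [pow_succ]; ring] at h3
    exact h3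
  have hrec : ∀ k < K, a (k + 1) = ((σ * (Real.sin (θ * L ^ (k + 1)) / Real.sin (θ * L ^ k)) : ℝ) : ℂ) * a k := by
    intro k hk
    rw [ha k hk.le, ha (k + 1) hk]
    have := (hstep k hk).1
    have hne : ((Real.sin (θ * L ^ k) : ℝ) : ℂ) ≠ 0 := by exact_mod_cast this.ne'
    push_cast
    push_cast at hne
    field_simp
    ring
  have hnorm1 : ∀ k ≤ K, ‖a k‖ ≤ θ * L ^ k := by
    intro k hk
    rw [ha k hk, norm_mul, Complex.norm_real, norm_neg, norm_mul, norm_pow, Real.norm_eq_abs σ, hσabs,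
      one_pow, one_mul]
    have h1 : 0 < θ * (L:ℝ) ^ k := by positivity
    have h2 : θ * (L:ℝ) ^ k ≤ Real.pi / 4 := (hmono k K hk).trans hθK
    have hpi := Real.pi_pos
    have h3 : 0 < Real.sin (θ * L ^ k) := Real.sin_pos_of_pos_of_lt_pi h1 (by linarith)
    rw [Real.norm_of_nonneg h3.le]
    calc ‖α‖ * Real.sin (θ * L ^ k) ≤ 1 * Real.sin (θ * L ^ k) := by gcongr
      _ ≤ θ * L ^ k := by rw [one_mul]; exact Real.sin_le h1.le
  have hnormle1 : ∀ k ≤ K, ‖a k‖ ≤ 1 := by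
    intro k hk
    have h2 : θ * (L:ℝ) ^ k ≤ Real.pi / 4 := (hmono k K hk).trans hθK
    have hpi := Real.pi_lt_d2
    have := hnorm1 k hk
    linarith
  have hsmall : ∀ k ≤ 3, ‖a k‖ ≤ 1 / 200 := fun k hk =>
    (hnorm1 k (hk.trans hK)).trans ((hmono k 3 hk).trans hθ3)
  have ha0 : a 0 ≠ 0 := by
    rw [ha 0 (by omega)]
    have := (hstep 0 (by omega)).1
    apply mul_ne_zero hα
    rw [pow_zero, one_mul]
    exact_mod_cast (neg_ne_zero.mpr this.ne')
  set v : ℂ := (1 + a 0) ^ 2 / (4 * a 0) * s with hv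
  set Wf : ℕ → ℂ := fun k => it (sh a 1) k v with hWf
  have hWsucc : ∀ k, Wf (k + 1) = quad (a (k + 1)) (Wf k) := by
    intro k
    show it (sh a 1) (k + 1) v = _
    rw [it_succ]
    have : sh a 1 k = a (k + 1) := by simp [sh, add_comm]
    rw [this]
  set ρ : ℕ → ℝ := fun k => Real.sin (θ * L ^ (k + 1)) / Real.sin (θ * L ^ k) with hρ
  have hρ25 : ∀ k < K, 2.5 ≤ ρ k := by
    intro k hk
    obtain ⟨h1, h2⟩ := hstep k hk
    rw [hρ]
    rw [le_div_iff₀ h1]
    exact h2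
  have hρ95 : ∀ k < 3, 0.95 * L ≤ ρ k := by
    intro k hk
    have h1 := (hstep k (by omega)).1
    rw [hρ]
    rw [le_div_iff₀ h1]
    exact hstep2 k hk
  have hY1 : a 1 * Wf 0 = (σ * ρ 0 : ℝ) * (1 + a 0) ^ 2 * s / 4 := by
    have hw0 : Wf 0 = v := rfl
    have hr0 : a 1 = ((σ * ρ 0 : ℝ) : ℂ) * a 0 := hrec 0 (by omega)
    rw [hw0, hr0, hv]
    field_simp
  have hYrec : ∀ k < K, 1 ≤ k → a (k + 1) * Wf k =
      (σ * ρ k : ℝ) * (a k * Wf (k - 1)) * (1 + a k - a k * Wf (k - 1)) := by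
    intro k hk hk1
    obtain ⟨j, rfl⟩ : ∃ j, k = j + 1 := ⟨k - 1, by omega⟩
    rw [hrec (j + 1) hk, hWsucc j, Nat.add_sub_cancel]
    unfold quad
    ring
  have hbase : 3 ≤ ‖a 3 * Wf 2‖ := by
    have y2 := hYrec 1 (by omega) le_rfl
    have y3 := hYrec 2 (by omega) (by omega)
    rcases hσ with h | ⟨h, h5⟩
    · have c : ∀ k < 3, 2.85 ≤ ρ k := by
        intro k hk
        have := hρ95 k hk
        nlinarith
      refine alg_neg (c 0 (by omega)) (c 1 (by omega)) (c 2 (by omega)) hs (hsmall 0 (by omega))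
        (hsmall 1 (by omega)) (hsmall 2 (by omega)) (Y1 := a 1 * Wf 0) (Y2 := a 2 * Wf 1) ?_ ?_ ?_
      · rw [hY1, h]; push_cast; ring
      · rw [y2, h]; push_cast; ring
      · rw [y3, h]; push_cast; ring
    · have h5r : (5 : ℝ) ≤ L := by exact_mod_cast h5
      have c : ∀ k < 3, 4.75 ≤ ρ k := by
        intro k hk
        have := hρ95 k hk
        nlinarith
      refine alg_pos (c 0 (by omega)) (c 1 (by omega)) (c 2 (by omega)) hs (hsmall 0 (by omega))
        (hsmall 1 (by omega)) (hsmall 2 (by omega)) (Y1 := a 1 * Wf 0) (Y2 := a 2 * Wf 1) ?_ ?_ ?_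
      · rw [hY1, h]; push_cast; ring
      · rw [y2, h]; push_cast; ring
      · rw [y3, h]; push_cast; ring
  have hind : ∀ n : ℕ, n + 3 ≤ K → 3 * 2 ^ n ≤ ‖a (n + 3) * Wf (n + 2)‖ := by
    intro n
    induction n with
    | zero => intro _; simpa using hbase
    | succ n ih =>
      intro hn
      have ih' := ih (by omega)
      have h1 := hYrec (n + 3) (by omega) (by omega)
      have h2 : a (n + 1 + 3) * Wf (n + 1 + 2) = a (n + 3 + 1) * Wf (n + 3) := by
        rw [show n + 1 + 3 = n + 3 + 1 by ring, show n + 1 + 2 = n + 3 by ring]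
      rw [h2, h1, norm_mul, norm_mul, Complex.norm_real, Real.norm_eq_abs, abs_mul, hσabs, one_mul]
      rw [show n + 3 - 1 = n + 2 by omega]
      have h3 : 2.5 ≤ |ρ (n + 3)| := (hρ25 (n + 3) (by omega)).trans (le_abs_self _)
      set y := ‖a (n + 3) * Wf (n + 2)‖ with hy
      have h4 : y - 2 ≤ ‖1 + a (n + 3) - a (n + 3) * Wf (n + 2)‖ := by
        have h5 := norm_sub_norm_le (a (n + 3) * Wf (n + 2)) (1 + a (n + 3))
        rw [norm_sub_rev] at h5
        have h6 : ‖1 + a (n + 3)‖ ≤ 2 := by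
          refine (norm_add_le _ _).trans ?_
          rw [norm_one]
          have := hnormle1 (n + 3) (by omega)
          linarith
        linarith
      have h7 : (1 : ℝ) ≤ 2 ^ n := one_le_pow₀ (by norm_num)
      have hy3 : 3 ≤ y := by linarith
      calc (3 : ℝ) * 2 ^ (n + 1) = 2 * (3 * 2 ^ n) := by rw [pow_succ]; ring
        _ ≤ 2 * y := by gcongr
        _ ≤ 2.5 * y * 1 := by linarith
        _ ≤ |ρ (n + 3)| * y * ‖1 + a (n + 3) - a (n + 3) * Wf (n + 2)‖ := by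
            gcongr
            linarith
  have hfin := hind (K - 3) (by omega)
  rw [show K - 3 + 3 = K by omega, show K - 3 + 2 = K - 1 by omega, norm_mul] at hfin
  have h8 := hnormle1 K le_rfl
  have h9 : 0 ≤ ‖Wf (K - 1)‖ := norm_nonneg _
  show _ ≤ ‖Wf (K - 1)‖
  nlinarith

lemma even_escape {α : ℂ} (hα : α ≠ 0) {K : ℕ} (hK : 1 ≤ K) {a : ℕ → ℂ} {M : ℝ}
    (ha0 : a 0 ≠ 0) (ha0s : ‖a 0‖ ≤ 1 / 2) (hM : M ≤ 1 / (16 * ‖a 0‖)) (hMα : 6 ≤ ‖α‖ * M)
    (ha : ∀ k, 1 ≤ k → k ≤ K → ‖α‖ / 2 ≤ ‖a k‖ ∧ ‖a k‖ ≤ 1) {s : ℝ} (hs : 1 ≤ s) :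
    M ≤ ‖it (sh a 1) (K - 1) ((1 + a 0) ^ 2 / (4 * a 0) * s)‖ := by
  set v : ℂ := (1 + a 0) ^ 2 / (4 * a 0) * s with hv
  have hαpos : 0 < ‖α‖ := norm_pos_iff.mpr hα
  have hMpos : 0 < M := by
    by_contra hc
    push Not at hc
    nlinarith
  have h0 : 0 < ‖a 0‖ := norm_pos_iff.mpr ha0
  have hv0 : M ≤ ‖v‖ := by
    rw [hv, norm_mul, norm_div, norm_pow, norm_mul, Complex.norm_ofNat, Complex.norm_real,
      Real.norm_of_nonneg (by linarith)]
    have h1 : 1 / 2 ≤ ‖1 + a 0‖ := by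
      have := norm_sub_norm_le (1 : ℂ) (-(a 0))
      rw [norm_neg, norm_one, sub_neg_eq_add] at this
      linarith
    calc M ≤ 1 / (16 * ‖a 0‖) := hM
      _ = (1 / 2) ^ 2 / (4 * ‖a 0‖) * 1 := by field_simp; norm_num
      _ ≤ ‖1 + a 0‖ ^ 2 / (4 * ‖a 0‖) * s := by gcongr
  have hind : ∀ n : ℕ, n + 1 ≤ K → M ≤ ‖it (sh a 1) n v‖ := by
    intro n
    induction n with
    | zero => intro _; exact hv0
    | succ n ih =>
      intro hn
      have ih' := ih (by omega)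
      rw [it_succ]
      have hsh : sh a 1 n = a (n + 1) := by simp [sh, add_comm]
      rw [hsh]
      obtain ⟨h1, h2⟩ := ha (n + 1) (by omega) (by omega)
      refine le_trans ?_ (norm_quad_ge _ _)
      set w := ‖it (sh a 1) n v‖ with hw
      have h3 : 3 ≤ ‖a (n + 1)‖ * w := by
        calc (3 : ℝ) = 6 / 2 := by norm_num
          _ ≤ ‖α‖ * M / 2 := by gcongr
          _ = ‖α‖ / 2 * M := by ring
          _ ≤ ‖a (n + 1)‖ * w := by gcongr
      calc M ≤ w * 1 := by linarith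
        _ ≤ w * (‖a (n + 1)‖ * w - 1 - ‖a (n + 1)‖) := by
            have : 0 ≤ w := norm_nonneg _
            gcongr
            linarith
  exact hind (K - 1) (by omega)

lemma cosC_coe (x : ℝ) : cosC (x : UnitAddCircle) = Real.cos (2 * Real.pi * x) := by
  unfold cosC
  rw [AddCircle.toCircle_apply_mk, Circle.coe_exp, div_one, Complex.exp_ofReal_mul_I_re]

lemma abs_cosC_le (u : UnitAddCircle) : |cosC u| ≤ 1 := by
  unfold cosC
  refine (Complex.abs_re_le_norm _).trans ?_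
  rw [Circle.norm_coe]

lemma continuous_cosC : Continuous cosC := by
  unfold cosC
  exact Complex.continuous_re.comp (continuous_subtype_val.comp AddCircle.continuous_toCircle)

lemma expand_iterate (L k : ℕ) (u : UnitAddCircle) : (expand L)^[k] u = L ^ k • u := by
  induction k with
  | zero => simp
  | succ k ih => rw [Function.iterate_succ_apply', ih, expand, ← mul_smul, pow_succ']

lemma continuous_expand_iterate (L k : ℕ) : Continuous ((expand L)^[k]) := by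
  have : (expand L)^[k] = fun u => L ^ k • u := funext (expand_iterate L k)
  rw [this]
  exact continuous_nsmul _

lemma expand_iterate_coe (L k : ℕ) (x : ℝ) :
    (expand L)^[k] (x : UnitAddCircle) = ((L ^ k * x : ℝ) : UnitAddCircle) := by
  rw [expand_iterate]
  have : ((L ^ k * x : ℝ) : UnitAddCircle) = (((L ^ k : ℕ) • x : ℝ) : UnitAddCircle) := by
    rw [nsmul_eq_mul]; push_cast; rfl
  rw [this, AddCircle.coe_nsmul]

lemma ergodic_expand {L : ℕ} (hL : 1 < L) : Ergodic (expand L) := AddCircle.ergodic_nsmul hL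

lemma cos_small {x δ : ℝ} (hx0 : 0 < x) (hx1 : x ≤ 1) (h : |Real.cos (2 * Real.pi * x)| < δ) :
    x ∈ Metric.closedBall (1 / 4 : ℝ) (δ / 4) ∪ Metric.closedBall (3 / 4 : ℝ) (δ / 4) := by
  have hpi := Real.pi_pos
  have key : ∀ y : ℝ, |y| ≤ 1 / 4 → 4 * |y| ≤ |Real.sin (2 * Real.pi * y)| := by
    intro y hy
    have h1 : |Real.sin (2 * Real.pi * y)| = Real.sin (2 * Real.pi * |y|) := by
      rcases le_or_gt 0 y with h | h
      · rw [abs_of_nonneg h] at hy ⊢
        rw [abs_of_nonneg]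
        apply Real.sin_nonneg_of_nonneg_of_le_pi (by positivity)
        nlinarith
      · rw [abs_of_neg h] at hy ⊢
        have : Real.sin (2 * Real.pi * y) = - Real.sin (2 * Real.pi * (-y)) := by
          rw [← Real.sin_neg]; ring_nf
        rw [this, abs_neg, abs_of_nonneg]
        apply Real.sin_nonneg_of_nonneg_of_le_pi
        · have : 0 < -y := by linarith
          positivity
        · nlinarith
    rw [h1]
    have h2 := Real.mul_le_sin (x := 2 * Real.pi * |y|) (by positivity) (by nlinarith)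
    calc 4 * |y| = 2 / Real.pi * (2 * Real.pi * |y|) := by field_simp; ring
      _ ≤ _ := h2
  rcases le_or_gt x (1 / 2) with h12 | h12
  · left
    rw [Metric.mem_closedBall, Real.dist_eq]
    have h1 := key (x - 1 / 4) (by rw [abs_le]; constructor <;> linarith)
    have h2 : |Real.sin (2 * Real.pi * (x - 1 / 4))| = |Real.cos (2 * Real.pi * x)| := by
      have : 2 * Real.pi * (x - 1 / 4) = 2 * Real.pi * x - Real.pi / 2 := by ring
      rw [this, Real.sin_sub_pi_div_two, abs_neg]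
    rw [h2] at h1
    linarith
  · right
    rw [Metric.mem_closedBall, Real.dist_eq]
    have h1 := key (x - 3 / 4) (by rw [abs_le]; constructor <;> linarith)
    have h2 : |Real.sin (2 * Real.pi * (x - 3 / 4))| = |Real.cos (2 * Real.pi * x)| := by
      have : 2 * Real.pi * (x - 3 / 4) = (2 * Real.pi * x - Real.pi) - Real.pi / 2 := by ring
      rw [this, Real.sin_sub_pi_div_two, Real.cos_sub_pi, neg_neg]
    rw [h2] at h1
    linarith

lemma volume_cosC_lt {δ : ℝ} (hδ : 0 ≤ δ) :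
    volume {u : UnitAddCircle | |cosC u| < δ} ≤ ENNReal.ofReal δ := by
  have hm : MeasurableSet {u : UnitAddCircle | |cosC u| < δ} :=
    (isOpen_lt continuous_cosC.abs continuous_const).measurableSet
  rw [AddCircle.add_projection_respects_measure (T := 1) 0 hm]
  have hsub : (QuotientAddGroup.mk ⁻¹' {u : UnitAddCircle | |cosC u| < δ} ∩ Set.Ioc (0:ℝ) (0 + 1)) ⊆
      Metric.closedBall (1 / 4 : ℝ) (δ / 4) ∪ Metric.closedBall (3 / 4 : ℝ) (δ / 4) := by
    rintro x ⟨hx1, hx2, hx3⟩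
    have hx1' : |cosC (x : UnitAddCircle)| < δ := hx1
    rw [cosC_coe] at hx1'
    exact cos_small hx2 (by linarith) hx1'
  calc volume _ ≤ volume (Metric.closedBall (1 / 4 : ℝ) (δ / 4) ∪ Metric.closedBall (3 / 4 : ℝ) (δ / 4)) :=
        measure_mono hsub
    _ ≤ volume (Metric.closedBall (1 / 4 : ℝ) (δ / 4)) + volume (Metric.closedBall (3 / 4 : ℝ) (δ / 4)) :=
        measure_union_le _ _
    _ = ENNReal.ofReal δ := by
        rw [Real.volume_closedBall, Real.volume_closedBall, ← ENNReal.ofReal_add (by positivity) (by positivity)]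
        congr 1
        ring

/-- points whose whole orbit stays polynomially far from the zeros of the cosine -/
def Good (L : ℕ) (η : ℝ) : Set UnitAddCircle :=
  {v | ∀ j : ℕ, η / ((j : ℝ) + 1) ^ 2 ≤ |cosC ((expand L)^[j] v)|}

lemma isClosed_Good (L : ℕ) (η : ℝ) : IsClosed (Good L η) := by
  have : Good L η = ⋂ j : ℕ, {v | η / ((j : ℝ) + 1) ^ 2 ≤ |cosC ((expand L)^[j] v)|} := by
    ext v; simp [Good]
  rw [this]
  refine isClosed_iInter fun j => isClosed_le continuous_const ?_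
  exact (continuous_cosC.comp (continuous_expand_iterate L j)).abs

lemma volume_Good_compl {L : ℕ} (hL : 1 < L) {η : ℝ} (hη : 0 ≤ η) :
    volume (Good L η)ᶜ ≤ ENNReal.ofReal (2 * η) := by
  have hsub : (Good L η)ᶜ ⊆ ⋃ j : ℕ, (expand L)^[j] ⁻¹' {u | |cosC u| < η / ((j : ℝ) + 1) ^ 2} := by
    intro v hv
    simp only [Good, Set.mem_compl_iff, Set.mem_ofPred_eq, not_forall, not_le] at hv
    obtain ⟨j, hj⟩ := hv
    exact Set.mem_iUnion.mpr ⟨j, hj⟩
  have hterm : ∀ j : ℕ, volume ((expand L)^[j] ⁻¹' {u | |cosC u| < η / ((j : ℝ) + 1) ^ 2}) ≤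
      ENNReal.ofReal (η / ((j : ℝ) + 1) ^ 2) := by
    intro j
    have hmp := (ergodic_expand hL).toMeasurePreserving.iterate j
    rw [hmp.measure_preimage (isOpen_lt continuous_cosC.abs continuous_const).measurableSet.nullMeasurableSet]
    exact volume_cosC_lt (by positivity)
  have hsum0 := hasSum_zeta_two
  have hsum : HasSum (fun j : ℕ => η / ((j : ℝ) + 1) ^ 2) (η * (Real.pi ^ 2 / 6)) := by
    have h1 := (hasSum_nat_add_iff' 1).mpr hsum0
    simp only [Finset.range_one, Finset.sum_singleton, Nat.cast_zero] at h1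
    have h2 := h1.mul_left η
    have e1 : (fun j : ℕ => η / ((j : ℝ) + 1) ^ 2) = fun i : ℕ => η * (1 / ((i + 1 : ℕ) : ℝ) ^ 2) := by
      ext j; push_cast; rw [mul_one_div]
    have e2 : η * (Real.pi ^ 2 / 6) = η * (Real.pi ^ 2 / 6 - 1 / 0 ^ 2) := by norm_num
    rw [e1, e2]
    exact h2
  calc volume (Good L η)ᶜ ≤ volume (⋃ j : ℕ, (expand L)^[j] ⁻¹' {u | |cosC u| < η / ((j : ℝ) + 1) ^ 2}) :=
        measure_mono hsub
    _ ≤ ∑' j : ℕ, volume ((expand L)^[j] ⁻¹' {u | |cosC u| < η / ((j : ℝ) + 1) ^ 2}) := measure_iUnion_le _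
    _ ≤ ∑' j : ℕ, ENNReal.ofReal (η / ((j : ℝ) + 1) ^ 2) := ENNReal.tsum_le_tsum hterm
    _ = ENNReal.ofReal (η * (Real.pi ^ 2 / 6)) := by
        rw [← ENNReal.ofReal_tsum_of_nonneg (fun j => by positivity) hsum.summable, hsum.tsum_eq]
    _ ≤ ENNReal.ofReal (2 * η) := by
        apply ENNReal.ofReal_le_ofReal
        have := Real.pi_lt_d2
        have := Real.pi_pos
        have h : Real.pi ^ 2 / 6 ≤ 2 := by nlinarith
        nlinarith

/-- a.e. point visits a set of positive measure infinitely often -/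
lemma ae_frequently {α : Type*} [MeasurableSpace α] {μ : Measure α} [IsProbabilityMeasure μ]
    {f : α → α} (hf : Ergodic f μ) {s : Set α} (hs : MeasurableSet s) (hpos : μ s ≠ 0) :
    ∀ᵐ x ∂μ, ∃ᶠ n in atTop, f^[n] x ∈ s := by
  set B : Set α := {x | ∃ᶠ n in atTop, f^[n] x ∈ s} with hB
  have hBeq : B = ⋂ N : ℕ, ⋃ n : ℕ, ⋃ (_ : N ≤ n), f^[n] ⁻¹' s := by
    ext x; simp [hB, frequently_atTop]
  have hBm : MeasurableSet B := by
    rw [hBeq]
    refine MeasurableSet.iInter fun N => MeasurableSet.iUnion fun n => MeasurableSet.iUnion fun _ => ?_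
    exact (hf.measurable.iterate n) hs
  have hinv : f ⁻¹' B = B := by
    ext x
    simp only [hB, Set.mem_preimage, Set.mem_ofPred_eq, frequently_atTop]
    constructor
    · intro h N
      obtain ⟨n, hn, hx⟩ := h N
      exact ⟨n + 1, by omega, by rwa [Function.iterate_succ_apply]⟩
    · intro h N
      obtain ⟨n, hn, hx⟩ := h (N + 1)
      refine ⟨n - 1, by omega, ?_⟩
      rw [← Function.iterate_succ_apply, Nat.succ_eq_add_one, Nat.sub_add_cancel (by omega)]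
      exact hx
  have hcons : Conservative f μ := hf.toMeasurePreserving.conservative
  have hsB : ∀ᵐ x ∂μ, x ∈ s → x ∈ B := hcons.ae_mem_imp_frequently_image_mem hs.nullMeasurableSet
  rcases hf.toPreErgodic.ae_mem_or_ae_notMem hBm hinv with h | h
  · exact h
  · exfalso
    apply hpos
    have : ∀ᵐ x ∂μ, x ∉ s := by
      filter_upwards [h, hsB] with x h1 h2 h3
      exact h1 (h2 h3)
    rw [ae_iff] at this
    simpa using this

/-- the starting arc -/
def Arc (L K : ℕ) : Set ℝ := Set.Icc (1 / 4 + 1 / (16 * (L:ℝ) ^ K)) (1 / 4 + 1 / (8 * (L:ℝ) ^ K))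

/-- the set of starting points -/
def Start (L K : ℕ) (η : ℝ) : Set UnitAddCircle :=
  ((fun x : ℝ => (x : UnitAddCircle)) '' Arc L K) ∩ (expand L)^[K] ⁻¹' (Good L η)

lemma measurable_Start (L K : ℕ) (η : ℝ) : MeasurableSet (Start L K η) := by
  apply MeasurableSet.inter
  · have : IsCompact ((fun x : ℝ => (x : UnitAddCircle)) '' Arc L K) :=
      isCompact_Icc.image (AddCircle.continuous_mk' 1)
    exact this.isClosed.measurableSet
  · exact (continuous_expand_iterate L K).measurable (isClosed_Good L η).measurableSet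

lemma volume_Start_pos {L : ℕ} (hL : 1 < L) (K : ℕ) : volume (Start L K (1 / 64)) ≠ 0 := by
  have hLr : (1 : ℝ) < L := by exact_mod_cast hL
  have hLK : (1 : ℝ) ≤ (L : ℝ) ^ K := one_le_pow₀ hLr.le
  have hLKpos : (0 : ℝ) < (L : ℝ) ^ K := by positivity
  intro hzero
  have h0 := hzero
  rw [AddCircle.add_projection_respects_measure (T := 1) 0 (measurable_Start L K _)] at h0
  set p : ℝ := (L : ℝ) ^ K / 4 with hp
  set B : Set ℝ := QuotientAddGroup.mk ⁻¹' (Good L (1 / 64))ᶜ ∩ Set.Ioc p (p + 1) with hB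
  have hBvol : volume B ≤ ENNReal.ofReal (1 / 32) := by
    rw [hB, ← AddCircle.add_projection_respects_measure (T := 1) p (isClosed_Good L _).measurableSet.compl]
    refine (volume_Good_compl hL (by norm_num)).trans ?_
    norm_num
  have hcover : Arc L K ⊆ (QuotientAddGroup.mk ⁻¹' (Start L K (1 / 64)) ∩ Set.Ioc (0:ℝ) (0 + 1)) ∪
      ((fun x : ℝ => (L : ℝ) ^ K * x) ⁻¹' B) := by
    intro x hx
    obtain ⟨hx1, hx2⟩ := hx
    have g1 : 1 / (8 * (L:ℝ) ^ K) ≤ 1 / 8 := by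
      apply div_le_div_of_nonneg_left <;> linarith
    have g2 : 0 < 1 / (16 * (L:ℝ) ^ K) := by positivity
    by_cases hg : (expand L)^[K] (x : UnitAddCircle) ∈ Good L (1 / 64)
    · left
      refine ⟨⟨⟨x, ⟨hx1, hx2⟩, rfl⟩, hg⟩, ?_, ?_⟩
      · linarith
      · linarith
    · right
      refine ⟨?_, ?_, ?_⟩
      · show ((((L : ℝ) ^ K * x : ℝ)) : UnitAddCircle) ∈ (Good L (1 / 64))ᶜ
        rw [← expand_iterate_coe]
        exact hg
      · rw [hp]
        have : (L : ℝ) ^ K * (1 / 4 + 1 / (16 * (L:ℝ) ^ K)) ≤ (L : ℝ) ^ K * x := by gcongr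
        have e : (L : ℝ) ^ K * (1 / 4 + 1 / (16 * (L:ℝ) ^ K)) = (L : ℝ) ^ K / 4 + 1 / 16 := by
          field_simp
        linarith
      · rw [hp]
        have : (L : ℝ) ^ K * x ≤ (L : ℝ) ^ K * (1 / 4 + 1 / (8 * (L:ℝ) ^ K)) := by gcongr
        have e : (L : ℝ) ^ K * (1 / 4 + 1 / (8 * (L:ℝ) ^ K)) = (L : ℝ) ^ K / 4 + 1 / 8 := by
          field_simp
        show (L : ℝ) ^ K * x ≤ (L : ℝ) ^ K / 4 + 1
        linarith
  have hvol : ENNReal.ofReal (1 / (16 * (L:ℝ) ^ K)) ≤ ENNReal.ofReal (1 / (32 * (L:ℝ) ^ K)) := by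
    calc ENNReal.ofReal (1 / (16 * (L:ℝ) ^ K)) = volume (Arc L K) := by
          unfold Arc
          rw [Real.volume_Icc]
          congr 1
          field_simp
          ring
      _ ≤ _ := measure_mono hcover
      _ ≤ _ := measure_union_le _ _
      _ ≤ 0 + ENNReal.ofReal (1 / (32 * (L:ℝ) ^ K)) := by
          gcongr
          · exact h0.le
          · rw [Real.volume_preimage_mul_left hLKpos.ne']
            calc ENNReal.ofReal |((L:ℝ) ^ K)⁻¹| * volume B
                ≤ ENNReal.ofReal |((L:ℝ) ^ K)⁻¹| * ENNReal.ofReal (1 / 32) := by gcongr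
              _ = ENNReal.ofReal (1 / (32 * (L:ℝ) ^ K)) := by
                  rw [← ENNReal.ofReal_mul (abs_nonneg _), abs_of_pos (by positivity)]
                  congr 1
                  field_simp
      _ = _ := zero_add _
  rw [ENNReal.ofReal_le_ofReal_iff (by positivity)] at hvol
  have : 1 / (32 * (L:ℝ) ^ K) < 1 / (16 * (L:ℝ) ^ K) := by
    apply div_lt_div_of_pos_left <;> linarith
  linarith

/-! ### The random dynamical system -/

/-- the coefficients along the orbit of `u` -/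
noncomputable def co (α : ℂ) (L : ℕ) (u : UnitAddCircle) (k : ℕ) : ℂ :=
  α * cosC ((expand L)^[k] u)

lemma fibIter_eq (α : ℂ) (L : ℕ) (u : UnitAddCircle) (n : ℕ) :
    fibIter α L u n = it (co α L u) n := by
  induction n with
  | zero => rfl
  | succ n ih =>
    show fib α ((expand L)^[n] u) ∘ fibIter α L u n = quad (co α L u n) ∘ it (co α L u) n
    rw [ih]
    rfl

lemma sh_co (α : ℂ) (L : ℕ) (u : UnitAddCircle) (m : ℕ) :
    sh (co α L u) m = co α L ((expand L)^[m] u) := by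
  ext k
  unfold sh co
  rw [add_comm m k, Function.iterate_add_apply]

lemma norm_co (α : ℂ) (L : ℕ) (u : UnitAddCircle) (k : ℕ) :
    ‖co α L u k‖ = ‖α‖ * |cosC ((expand L)^[k] u)| := by
  unfold co
  rw [norm_mul, Complex.norm_real, Real.norm_eq_abs]

lemma goodSeq_co {α : ℂ} (hα1 : ‖α‖ ≤ 1) {L : ℕ} {η : ℝ} {u : UnitAddCircle} (hu : u ∈ Good L η) :
    GoodSeq (‖α‖ * η) (co α L u) := by
  intro j
  rw [norm_co]
  constructor
  · rw [mul_div_assoc]
    have := hu j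
    gcongr
  · have := abs_cosC_le ((expand L)^[j] u)
    have h0 := abs_nonneg (cosC ((expand L)^[j] u))
    have h1 := norm_nonneg α
    nlinarith

lemma co_coe (α : ℂ) (L : ℕ) (x : ℝ) (k : ℕ) :
    co α L (x : UnitAddCircle) k = α * (Real.cos (2 * Real.pi * ((L:ℝ) ^ k * x)) : ℝ) := by
  unfold co
  rw [expand_iterate_coe, cosC_coe]

/-- the trigonometric values near `1/4` for odd `L` -/
lemma cos_odd {L : ℕ} (k : ℕ) (y : ℝ) (hmod : L % 4 = 1 ∨ L % 4 = 3) :
    Real.cos (2 * Real.pi * ((L:ℝ) ^ k * (1 / 4 + y))) =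
      -((if L % 4 = 1 then (1:ℝ) else -1) ^ k * Real.sin (2 * Real.pi * y * (L:ℝ) ^ k)) := by
  have hcase : ∀ p : ℕ, L ^ k = 4 * p + 1 →
      Real.cos (2 * Real.pi * ((L:ℝ) ^ k * (1 / 4 + y))) = - Real.sin (2 * Real.pi * y * (L:ℝ) ^ k) := by
    intro p hp
    have hpr : (L : ℝ) ^ k = 4 * p + 1 := by exact_mod_cast hp
    have e : 2 * Real.pi * ((L:ℝ) ^ k * (1 / 4 + y)) =
        (2 * Real.pi * y * (L:ℝ) ^ k + Real.pi / 2) + p * (2 * Real.pi) := by
      rw [hpr]; ring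
    rw [e, Real.cos_add_nat_mul_two_pi, Real.cos_add_pi_div_two]
  have hcase3 : ∀ p : ℕ, L ^ k = 4 * p + 3 →
      Real.cos (2 * Real.pi * ((L:ℝ) ^ k * (1 / 4 + y))) = Real.sin (2 * Real.pi * y * (L:ℝ) ^ k) := by
    intro p hp
    have hpr : (L : ℝ) ^ k = 4 * p + 3 := by exact_mod_cast hp
    have e : 2 * Real.pi * ((L:ℝ) ^ k * (1 / 4 + y)) =
        ((2 * Real.pi * y * (L:ℝ) ^ k + Real.pi / 2) + Real.pi) + p * (2 * Real.pi) := by
      rw [hpr]; ring
    rw [e, Real.cos_add_nat_mul_two_pi, Real.cos_add_pi, Real.cos_add_pi_div_two, neg_neg]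
  rcases hmod with h | h
  · rw [if_pos h, one_pow, one_mul]
    have hmod1 : L ^ k % 4 = 1 := by
      simp [Nat.pow_mod, h]
    exact hcase (L ^ k / 4) (by omega)
  · rw [if_neg (by omega)]
    rcases Nat.even_or_odd k with hk | hk
    · rw [hk.neg_one_pow, one_mul]
      have hmod1 : L ^ k % 4 = 1 := by
        obtain ⟨j, rfl⟩ := hk
        rw [Nat.pow_mod, h, ← two_mul, pow_mul, Nat.pow_mod]
        norm_num
      exact hcase (L ^ k / 4) (by omega)
    · rw [hk.neg_one_pow]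
      have hmod1 : L ^ k % 4 = 3 := by
        obtain ⟨j, rfl⟩ := hk
        rw [Nat.pow_mod, h, pow_succ, pow_mul, Nat.mul_mod, Nat.pow_mod]
        norm_num
      rw [hcase3 (L ^ k / 4) (by omega)]
      ring

lemma abs_cos_even {L : ℕ} (hL : Even L) {k : ℕ} (hk : 1 ≤ k) (y : ℝ) :
    |Real.cos (2 * Real.pi * ((L:ℝ) ^ k * (1 / 4 + y)))| = |Real.cos (2 * Real.pi * y * (L:ℝ) ^ k)| := by
  have heven : Even (L ^ k) := hL.pow_of_ne_zero (by omega)
  obtain ⟨p, hp⟩ := heven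
  have hpr : (L : ℝ) ^ k = p + p := by exact_mod_cast hp
  have e : 2 * Real.pi * ((L:ℝ) ^ k * (1 / 4 + y)) = 2 * Real.pi * y * (L:ℝ) ^ k + p * Real.pi := by
    rw [hpr]; ring
  rw [e, Real.cos_add_nat_mul_pi, abs_mul, abs_pow, abs_neg, abs_one, one_pow, one_mul]

lemma start_escape {α : ℂ} (hα : α ≠ 0) (hα1 : ‖α‖ < 1) {L : ℕ} (hL : 1 < L) :
    ∃ K : ℕ, ∀ u ∈ Start L K (1 / 64), co α L u 0 ≠ 0 ∧ ‖co α L u 0‖ < 1 ∧
      ∀ s : ℝ, 1 ≤ s → Esc (‖α‖ * (1 / 64)) (sh (co α L u) 1)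
        ((1 + co α L u 0) ^ 2 / (4 * co α L u 0) * s) := by
  have hαpos : 0 < ‖α‖ := norm_pos_iff.mpr hα
  set ε := ‖α‖ * (1 / 64) with hε
  have hεpos : 0 < ε := by positivity
  obtain ⟨K, hK⟩ := pow_unbounded_of_one_lt (1600 + 16 * (9 / ε) + 96 / ‖α‖) (one_lt_two)
  have hLr : (2 : ℝ) ≤ L := by exact_mod_cast hL
  have hK3 : 3 ≤ K := by
    by_contra hcon
    push Not at hcon
    have h1 : (2 : ℝ) ^ K ≤ 2 ^ 3 := pow_le_pow_right₀ (by norm_num) hcon.le
    have h2 : 0 < 9 / ε := by positivity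
    have h3 : 0 < 96 / ‖α‖ := by positivity
    norm_num at h1
    linarith
  have h9 : 0 < 9 / ε := by positivity
  have h96 : 0 < 96 / ‖α‖ := by positivity
  refine ⟨K, ?_⟩
  rintro _ ⟨⟨x, ⟨hx1, hx2⟩, rfl⟩, hgood⟩
  simp only at hgood ⊢
  have hgoodK : GoodSeq ε (sh (sh (co α L (x : UnitAddCircle)) 1) (K - 1)) := by
    rw [sh_sh, show 1 + (K - 1) = K by omega, sh_co]
    exact goodSeq_co hα1.le hgood
  set y := x - 1 / 4 with hy
  have hxy : x = 1 / 4 + y := by rw [hy]; ring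
  set θ := 2 * Real.pi * y with hθ
  have hpi := Real.pi_pos
  have hpi2 := Real.pi_lt_d2
  have hpi3 := Real.pi_gt_three
  have hLK : (0:ℝ) < (L:ℝ) ^ K := by positivity
  have hy1 : 1 / (16 * (L:ℝ) ^ K) ≤ y := by rw [hy]; linarith
  have hy2 : y ≤ 1 / (8 * (L:ℝ) ^ K) := by rw [hy]; linarith
  have hypos : 0 < y := lt_of_lt_of_le (by positivity) hy1
  have hθpos : 0 < θ := by positivity
  have hθK : θ * (L:ℝ) ^ K ≤ Real.pi / 4 := by
    calc θ * (L:ℝ) ^ K ≤ 2 * Real.pi * (1 / (8 * (L:ℝ) ^ K)) * (L:ℝ) ^ K := by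
          rw [hθ]; gcongr
      _ = Real.pi / 4 := by field_simp; norm_num
  have h2K : (2:ℝ) ^ K ≤ (L:ℝ) ^ K := pow_le_pow_left₀ (by norm_num) hLr K
  have hθsmall : θ * 2 ^ K ≤ 1 := by
    calc θ * 2 ^ K ≤ θ * (L:ℝ) ^ K := by gcongr
      _ ≤ Real.pi / 4 := hθK
      _ ≤ 1 := by linarith
  rcases Nat.even_or_odd L with hev | hodd
  · -- even case
    have ha0 : co α L (x : UnitAddCircle) 0 = α * ((- Real.sin θ : ℝ) : ℂ) := by
      rw [co_coe, pow_zero, one_mul, hxy]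
      have : 2 * Real.pi * (1 / 4 + y) = θ + Real.pi / 2 := by rw [hθ]; ring
      rw [this, Real.cos_add_pi_div_two]
    have hθ1 : θ ≤ 1 := by
      have : (1:ℝ) ≤ 2 ^ K := one_le_pow₀ (by norm_num)
      nlinarith
    have hsin : 0 < Real.sin θ := Real.sin_pos_of_pos_of_lt_pi hθpos (by linarith)
    have hne : co α L (x : UnitAddCircle) 0 ≠ 0 := by
      rw [ha0]
      apply mul_ne_zero hα
      exact_mod_cast (neg_ne_zero.mpr hsin.ne')
    have hn0 : ‖co α L (x : UnitAddCircle) 0‖ ≤ θ := by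
      rw [ha0, norm_mul, Complex.norm_real, norm_neg, Real.norm_of_nonneg hsin.le]
      calc ‖α‖ * Real.sin θ ≤ 1 * θ := by
            gcongr
            exact Real.sin_le hθpos.le
        _ = θ := one_mul θ
    have hθhalf : θ ≤ 1 / 2 := by
      have : (1600:ℝ) ≤ 2 ^ K := by linarith
      nlinarith
    refine ⟨hne, by linarith, ?_⟩
    intro s hs
    refine ⟨K - 1, hgoodK, ?_⟩
    have hM : 9 / ε < 2 ^ K / 16 := by linarith
    refine lt_of_lt_of_le hM ?_
    apply even_escape hα (by omega) hne (by linarith) _ _ _ hs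
    · rw [le_div_iff₀ (by positivity)]
      calc (2:ℝ) ^ K / 16 * (16 * ‖co α L (x : UnitAddCircle) 0‖) = ‖co α L (x : UnitAddCircle) 0‖ * 2 ^ K := by ring
        _ ≤ θ * 2 ^ K := by gcongr
        _ ≤ 1 := hθsmall
    · have h1 : 96 / ‖α‖ ≤ 2 ^ K := by linarith
      rw [div_le_iff₀ hαpos] at h1
      linarith
    · intro k hk1 hkK
      rw [norm_co, expand_iterate_coe, cosC_coe, hxy, abs_cos_even hev hk1]
      have hle : 2 * Real.pi * y * (L:ℝ) ^ k ≤ Real.pi / 3 := by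
        have : (L:ℝ) ^ k ≤ (L:ℝ) ^ K := pow_le_pow_right₀ (by linarith) hkK
        calc 2 * Real.pi * y * (L:ℝ) ^ k ≤ θ * (L:ℝ) ^ K := by rw [hθ]; gcongr
          _ ≤ Real.pi / 4 := hθK
          _ ≤ Real.pi / 3 := by linarith
      have hnn : 0 ≤ 2 * Real.pi * y * (L:ℝ) ^ k := by positivity
      have hcos : 1 / 2 ≤ Real.cos (2 * Real.pi * y * (L:ℝ) ^ k) := by
        rw [← Real.cos_pi_div_three]
        exact Real.cos_le_cos_of_nonneg_of_le_pi hnn (by linarith) hle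
      have hcos1 := Real.cos_le_one (2 * Real.pi * y * (L:ℝ) ^ k)
      rw [abs_of_nonneg (by linarith)]
      constructor
      · nlinarith
      · nlinarith
  · -- odd case
    have hmod : L % 4 = 1 ∨ L % 4 = 3 := by
      obtain ⟨j, hj⟩ := hodd
      omega
    have hL3 : 3 ≤ L := by
      obtain ⟨j, hj⟩ := hodd
      omega
    set σ : ℝ := if L % 4 = 1 then (1:ℝ) else -1 with hσ
    have hσc : σ = -1 ∨ (σ = 1 ∧ 5 ≤ L) := by
      rcases hmod with h | h
      · right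
        exact ⟨by rw [hσ, if_pos h], by omega⟩
      · left
        rw [hσ, if_neg (by omega)]
    have ha : ∀ k ≤ K, co α L (x : UnitAddCircle) k = α * ((-(σ ^ k * Real.sin (θ * (L:ℝ) ^ k)) : ℝ) : ℂ) := by
      intro k _
      rw [co_coe, hxy, cos_odd k y hmod]
    have hθ3 : θ * (L:ℝ) ^ 3 ≤ 1 / 200 := by
      have e : (L:ℝ) ^ K = (L:ℝ) ^ 3 * (L:ℝ) ^ (K - 3) := by rw [← pow_add]; congr 1; omega
      have e2 : (2:ℝ) ^ K = 8 * 2 ^ (K - 3) := by
        have : (8:ℝ) = 2 ^ 3 := by norm_num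
        rw [this, ← pow_add]; congr 1; omega
      have h1 : (200:ℝ) ≤ 2 ^ (K - 3) := by
        have : (1600:ℝ) ≤ 2 ^ K := by linarith
        linarith
      have h2 : (200:ℝ) ≤ (L:ℝ) ^ (K - 3) := h1.trans (pow_le_pow_left₀ (by norm_num) hLr _)
      have h3 : θ * (L:ℝ) ^ 3 * 200 ≤ 1 := by
        calc θ * (L:ℝ) ^ 3 * 200 ≤ θ * (L:ℝ) ^ 3 * (L:ℝ) ^ (K - 3) := by gcongr
          _ = θ * (L:ℝ) ^ K := by rw [e]; ring
          _ ≤ Real.pi / 4 := hθK
          _ ≤ 1 := by linarith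
      linarith
    have hsin0 : 0 < Real.sin θ := by
      apply Real.sin_pos_of_pos_of_lt_pi hθpos
      have h1 : (1:ℝ) ≤ 2 ^ K := one_le_pow₀ (by norm_num)
      nlinarith
    have ha0 : co α L (x : UnitAddCircle) 0 = α * ((-(Real.sin θ) : ℝ) : ℂ) := by
      rw [ha 0 (by omega), pow_zero, pow_zero, one_mul, mul_one]
    have hne : co α L (x : UnitAddCircle) 0 ≠ 0 := by
      rw [ha0]
      apply mul_ne_zero hα
      exact_mod_cast (neg_ne_zero.mpr hsin0.ne')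
    have hn0 : ‖co α L (x : UnitAddCircle) 0‖ < 1 := by
      rw [norm_co]
      have h1 := abs_cosC_le ((expand L)^[0] (x : UnitAddCircle))
      have h2 := abs_nonneg (cosC ((expand L)^[0] (x : UnitAddCircle)))
      nlinarith
    refine ⟨hne, hn0, ?_⟩
    intro s hs
    refine ⟨K - 1, hgoodK, ?_⟩
    refine lt_of_lt_of_le ?_ (odd_escape hL3 σ hσc hθpos hK3 hθK hθ3 hα hα1.le ha hs)
    have e2 : (2:ℝ) ^ K = 8 * 2 ^ (K - 3) := by
      have : (8:ℝ) = 2 ^ 3 := by norm_num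
      rw [this, ← pow_add]; congr 1; omega
    linarith

/-- For every integer `L > 1` and every `α` with `0 < |α| < 1`, the random Julia set `𝒥_u` is
disconnected for Lebesgue-almost every `u`. -/
theorem result (L : ℕ) (hL : 1 < L) (α : ℂ) (hα0 : 0 < ‖α‖) (hα1 : ‖α‖ < 1) :
    (∀ᵐ u : UnitAddCircle, ¬ IsPreconnected (randomJulia α L u)) ∧
    ∃ Λ : Set UnitAddCircle, MeasurableSet Λ ∧ 0 < volume Λ ∧
      ∀ u ∈ Λ, ¬ IsPreconnected (randomJulia α L u) := by
  have hα : α ≠ 0 := norm_pos_iff.mp hα0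
  have hprob : IsProbabilityMeasure (volume : Measure UnitAddCircle) :=
    ⟨by rw [AddCircle.measure_univ]; simp⟩
  have hae : ∀ᵐ u : UnitAddCircle, ¬ IsPreconnected (randomJulia α L u) := by
    obtain ⟨K, hK⟩ := start_escape hα hα1 hL
    have hεpos : 0 < ‖α‖ * (1 / 64) := by positivity
    have hG : volume (Good L (1 / 64)) ≠ 0 := by
      intro h0
      apply volume_Start_pos hL 0
      refine measure_mono_null ?_ h0
      rintro u ⟨_, hu⟩
      exact hu
    filter_upwards [ae_frequently (ergodic_expand hL) (isClosed_Good L (1 / 64)).measurableSet hG,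
      ae_frequently (ergodic_expand hL) (measurable_Start L K (1 / 64)) (volume_Start_pos hL K)]
      with u h1 h2
    obtain ⟨m, hm⟩ := h2.exists
    obtain ⟨c1, c2, c3⟩ := hK _ hm
    have hfreq : ∃ᶠ n in atTop, GoodSeq (‖α‖ * (1 / 64)) (sh (co α L u) n) := by
      refine h1.mono fun n hn => ?_
      rw [sh_co]
      exact goodSeq_co hα1.le hn
    have e0 : co α L ((expand L)^[m] u) 0 = co α L u m := by
      rw [← sh_co]; rfl
    rw [e0] at c1 c2 c3
    have hmain := not_preconnected hεpos hfreq m c1 c2 (by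
      intro s hs
      have := c3 s hs
      rw [← sh_co, sh_sh] at this
      exact this)
    have hfam : fam (co α L u) = fun n => OnePoint.map (fibIter α L u (n + 1)) := by
      ext1 n
      unfold fam
      rw [fibIter_eq]
    unfold randomJulia
    rw [← hfam]
    exact hmain
  refine ⟨hae, ?_⟩
  set D : Set UnitAddCircle := {u | ¬ IsPreconnected (randomJulia α L u)} with hD
  have hDc : volume Dᶜ = 0 := by
    rw [ae_iff] at hae
    exact hae
  refine ⟨(toMeasurable volume Dᶜ)ᶜ, (measurableSet_toMeasurable _ _).compl, ?_, ?_⟩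
  · rw [measure_compl (measurableSet_toMeasurable _ _) (measure_ne_top _ _), measure_toMeasurable, hDc]
    simp
  · intro u hu
    by_contra hcon
    apply hu
    apply subset_toMeasurable
    intro h
    exact h (by simpa using hcon)

end Pool.Agent.Results.MP_aeea9f_an.KanJulia
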